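import Mathlib

/-!
# S4: additive reduction of `y^2 + y = x^3` when `3` does not divide the valuation of `3`
-/

set_option autoImplicit false

namespace Pool.Agent.Lib.MP_1a91b9_nuT.S4

open WeierstrassCurve IsDedekindDomain

/-- The curve `y^2 + y = x^3`. -/
def fermatCubic (R : Type*) [CommRing R] : WeierstrassCurve R := ⟨0, 0, 1, 0, 0⟩

theorem fermatCubic_map {R S : Type*} [CommRing R] [CommRing S] (f : R →+* S) :
    (fermatCubic R).map f = fermatCubic S := by
  ext <;> simp [fermatCubic]

theorem fermatCubic_delta (R : Type*) [CommRing R] : (fermatCubic R).Δ = -27 := by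
  simp only [fermatCubic, WeierstrassCurve.Δ, WeierstrassCurve.b₂, WeierstrassCurve.b₄,
    WeierstrassCurve.b₆, WeierstrassCurve.b₈]
  ring


end Pool.Agent.Lib.MP_1a91b9_nuT.S4
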