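import Pool.Agent.Lib.MP_1a91b9_nt.QuadField
import Pool.Agent.Lib.MP_1a91b9_nt.Residue

/-!
# S4: primes in the quadratic extension generated by a cube root of unity
-/

set_option autoImplicit false

namespace Pool.Agent.Lib.MP_1a91b9_nuT.S4

open IsDedekindDomain NumberField Polynomial IntermediateField Pool.Agent.Lib.MP_1a91b9_nt
open scoped Pointwise

universe u

/-- a primitive cube root of unity in the residue field -/
theorem u4_exists_root {N : Type*} [Field N] [NumberField N] (v : HeightOneSpectrum (𝓞 N))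
    (hq : 3 ∣ nrm v - 1) : ∃ c : 𝓞 N, c ^ 2 + c + 1 ∈ v.asIdeal := by
  classical
  have hmax : v.asIdeal.IsMaximal := v.isMaximal
  let _ : Field (𝓞 N ⧸ v.asIdeal) := Ideal.Quotient.field _
  have hfin : Finite (𝓞 N ⧸ v.asIdeal) := v.asIdeal.finiteQuotientOfFreeOfNeBot v.ne_bot
  have := Fintype.ofFinite (𝓞 N ⧸ v.asIdeal)
  have hcard : Fintype.card (𝓞 N ⧸ v.asIdeal) = nrm v := by
    rw [nrm_eq, Ideal.absNorm_apply, Submodule.cardQuot_apply, Nat.card_eq_fintype_card]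
  have hu : 3 ∣ Fintype.card (𝓞 N ⧸ v.asIdeal)ˣ := by
    rw [Fintype.card_units, hcard]
    exact hq
  have : Fact (Nat.Prime 3) := ⟨Nat.prime_three⟩
  obtain ⟨g, hg⟩ := exists_prime_orderOf_dvd_card 3 hu
  obtain ⟨c, hc⟩ := Ideal.Quotient.mk_surjective (g : 𝓞 N ⧸ v.asIdeal)
  refine ⟨c, ?_⟩
  rw [← Ideal.Quotient.eq_zero_iff_mem, map_add, map_add, map_pow, hc, map_one]
  have h1 : (g : 𝓞 N ⧸ v.asIdeal) ^ 3 = 1 := by
    rw [← Units.val_pow_eq_pow_val, ← hg, pow_orderOf_eq_one, Units.val_one]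
  have h2 : (g : 𝓞 N ⧸ v.asIdeal) ≠ 1 := by
    intro h
    have : g = 1 := Units.ext h
    rw [this, orderOf_one] at hg
    omega
  have h3 : ((g : 𝓞 N ⧸ v.asIdeal) - 1) * ((g : 𝓞 N ⧸ v.asIdeal) ^ 2 + g + 1) = 0 := by
    linear_combination h1
  rcases mul_eq_zero.mp h3 with h | h
  · exact absurd (sub_eq_zero.mp h) h2
  · exact h

/-- a cube root of unity in `𝓞 N` forces `3 ∣ nrm v - 1` -/
theorem u4_three_dvd {N : Type*} [Field N] [NumberField N] (v : HeightOneSpectrum (𝓞 N))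
    (h3 : (3 : 𝓞 N) ∉ v.asIdeal) (z : 𝓞 N) (hz : z ^ 2 + z + 1 = 0) : 3 ∣ nrm v - 1 := by
  classical
  have hmax : v.asIdeal.IsMaximal := v.isMaximal
  let _ : Field (𝓞 N ⧸ v.asIdeal) := Ideal.Quotient.field _
  have hfin : Finite (𝓞 N ⧸ v.asIdeal) := v.asIdeal.finiteQuotientOfFreeOfNeBot v.ne_bot
  have := Fintype.ofFinite (𝓞 N ⧸ v.asIdeal)
  have hcard : Fintype.card (𝓞 N ⧸ v.asIdeal) = nrm v := by
    rw [nrm_eq, Ideal.absNorm_apply, Submodule.cardQuot_apply, Nat.card_eq_fintype_card]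
  set y : 𝓞 N ⧸ v.asIdeal := Ideal.Quotient.mk v.asIdeal z with hy
  have h1 : y ^ 2 + y + 1 = 0 := by
    rw [hy, ← map_pow, ← map_add, ← map_one (Ideal.Quotient.mk v.asIdeal), ← map_add, hz, map_zero]
  have h13 : y ^ 3 = 1 := by linear_combination (y - 1) * h1
  have hy0 : y ≠ 0 := by
    intro h
    rw [h] at h13
    rw [zero_pow (by norm_num)] at h13
    exact zero_ne_one h13
  have hy1 : y ≠ 1 := by
    intro h
    rw [h] at h1
    apply h3
    rw [← Ideal.Quotient.eq_zero_iff_mem, map_ofNat]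
    linear_combination h1
  have hord : orderOf (Units.mk0 y hy0) = 3 := by
    refine orderOf_eq_prime (p := 3) ?_ ?_
    · ext
      simpa using h13
    · intro h
      apply hy1
      have := congrArg Units.val h
      simpa using this
  rw [← hcard, ← Fintype.card_units, ← hord]
  exact orderOf_dvd_card

/-- splitting in `N(ζ)` -/
theorem u4_split {N F : Type u} [Field N] [NumberField N] [Field F] [NumberField F] [Algebra N F]
    (hL : Module.finrank N F = 2) (ζ : F) (hζ : ζ ^ 2 + ζ + 1 = 0)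
    (hn : ∀ x : N, algebraMap N F x ≠ ζ) (v : HeightOneSpectrum (𝓞 N))
    (h3 : (3 : 𝓞 N) ∉ v.asIdeal) :
    (3 ∣ nrm v - 1 ∧
      (∀ w : HeightOneSpectrum (𝓞 F), w.asIdeal.under (𝓞 N) = v.asIdeal → nrm w = nrm v) ∧
      Nat.card {w : HeightOneSpectrum (𝓞 F) // w.asIdeal.under (𝓞 N) = v.asIdeal} = 2) ∨
    (¬ 3 ∣ nrm v - 1 ∧
      (∀ w : HeightOneSpectrum (𝓞 F), w.asIdeal.under (𝓞 N) = v.asIdeal → nrm w = nrm v ^ 2) ∧
      Nat.card {w : HeightOneSpectrum (𝓞 F) // w.asIdeal.under (𝓞 N) = v.asIdeal} = 1) := by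
  have hquad : Algebra.IsQuadraticExtension N F := ⟨hL⟩
  have hgal : IsGalois N F := inferInstance
  -- conjugation
  have hconj : ∃ σ : Gal(F/N), σ ζ = -1 - ζ := by
    by_contra hcon
    push Not at hcon
    have h1 : ∀ σ : Gal(F/N), σ ζ = ζ := by
      intro σ
      have h2 : (σ ζ) ^ 2 + σ ζ + 1 = 0 := by
        rw [← map_pow, ← map_add, ← map_one σ, ← map_add, hζ, map_zero]
      have h4 : (σ ζ - ζ) * (σ ζ + 1 + ζ) = 0 := by linear_combination h2 - hζ
      rcases mul_eq_zero.mp h4 with h | h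
      · exact sub_eq_zero.mp h
      · exact absurd (by linear_combination h) (hcon σ)
    obtain ⟨x, hx⟩ := (IsGalois.mem_range_algebraMap_iff_fixed ζ).mpr h1
    exact hn x hx
  obtain ⟨σ, hσ⟩ := hconj
  have hint : IsIntegral ℤ ζ := by
    refine ⟨X ^ 2 + X + 1, ?_, ?_⟩
    · monicity!
    · simpa using hζ
  let D : 𝓞 F := ⟨ζ, hint⟩
  have hD : D ^ 2 + D + 1 = 0 := by
    apply RingOfIntegers.ext
    change ζ ^ 2 + ζ + 1 = 0
    exact hζ
  have hσD : σ • D = -1 - D := by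
    apply RingOfIntegers.ext
    change σ ζ = -1 - ζ
    exact hσ
  have hvp : v.asIdeal.IsPrime := v.isPrime
  have hvm : v.asIdeal.IsMaximal := v.isMaximal
  have hfund := Ideal.ncard_primesOver_mul_ramificationIdxIn_mul_inertiaDegIn v.asIdeal (𝓞 F)
    Gal(F/N)
  have hcard : Nat.card Gal(F/N) = 2 := by
    rw [IsGalois.card_aut_eq_finrank, hL]
  rw [hcard] at hfund
  have hdeg : ∀ w : HeightOneSpectrum (𝓞 F), w.asIdeal.under (𝓞 N) = v.asIdeal →
      w.asIdeal.inertiaDeg (𝓞 N) = Ideal.inertiaDegIn v.asIdeal (𝓞 F) := by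
    intro w hw
    have i1 : w.asIdeal.IsPrime := w.isPrime
    have i2 : w.asIdeal.LiesOver v.asIdeal := ⟨hw.symm⟩
    exact (Ideal.inertiaDegIn_eq_inertiaDeg v.asIdeal w.asIdeal Gal(F/N)).symm
  have hnrm : ∀ w : HeightOneSpectrum (𝓞 F), w.asIdeal.under (𝓞 N) = v.asIdeal →
      nrm w = nrm v ^ Ideal.inertiaDegIn v.asIdeal (𝓞 F) := by
    intro w hw
    have i2 : w.asIdeal.LiesOver v.asIdeal := ⟨hw.symm⟩
    rw [nrm_eq, nrm_eq, ← hdeg w hw, Ideal.absNorm_pow_inertiaDeg v.asIdeal w.asIdeal]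
  have h3w : ∀ w : HeightOneSpectrum (𝓞 F), w.asIdeal.under (𝓞 N) = v.asIdeal →
      (3 : 𝓞 F) ∉ w.asIdeal := by
    intro w hw hmem
    apply h3
    rw [← hw]
    change algebraMap (𝓞 N) (𝓞 F) 3 ∈ w.asIdeal
    rw [map_ofNat]
    exact hmem
  rw [card_over_eq]
  obtain ⟨Q, hQ1, hQ2⟩ := (inferInstance : Nonempty (v.asIdeal.primesOver (𝓞 F)))
  have hQm : Q.IsMaximal := Ideal.IsPrime.isMaximal inferInstance
    (under_ne_bot v Q hQ2.over.symm)
  have hmem : ∀ x : 𝓞 N, algebraMap (𝓞 N) (𝓞 F) x ∈ Q ↔ x ∈ v.asIdeal := by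
    intro x
    rw [hQ2.over]
    rfl
  have hdvd : (v.asIdeal.primesOver (𝓞 F)).ncard ∣ 2 := ⟨_, hfund.symm⟩
  by_cases hs : 3 ∣ nrm v - 1
  · left
    obtain ⟨c, hc⟩ := u4_exists_root v hs
    have hne1 : (v.asIdeal.primesOver (𝓞 F)).ncard ≠ 1 := by
      intro h1
      obtain ⟨P, hP⟩ := Set.ncard_eq_one.mp h1
      have hQP : Q = P := by
        have : Q ∈ v.asIdeal.primesOver (𝓞 F) := ⟨hQ1, hQ2⟩
        rw [hP] at this
        exact this
      have hσQ : σ • Q = Q := by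
        have h2 : σ • Q ∈ v.asIdeal.primesOver (𝓞 F) := ⟨inferInstance, inferInstance⟩
        rw [hP] at h2
        rw [hQP]
        rw [hQP] at h2
        exact h2
      have hmul : (D - algebraMap (𝓞 N) (𝓞 F) c) * (D + 1 + algebraMap (𝓞 N) (𝓞 F) c) ∈ Q := by
        have e1 : (D - algebraMap (𝓞 N) (𝓞 F) c) * (D + 1 + algebraMap (𝓞 N) (𝓞 F) c) =
            - algebraMap (𝓞 N) (𝓞 F) (c ^ 2 + c + 1) := by
          rw [map_add, map_add, map_pow, map_one]
          linear_combination hD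
        rw [e1]
        exact Q.neg_mem ((hmem _).mpr hc)
      have hstab : ∀ x : 𝓞 F, x ∈ Q → σ • x ∈ Q := by
        intro x hx
        rw [← hσQ]
        exact Ideal.smul_mem_pointwise_smul _ _ _ hx
      have hfin : algebraMap (𝓞 N) (𝓞 F) (2 * c + 1) ∈ Q := by
        have hcfix : σ • algebraMap (𝓞 N) (𝓞 F) c = algebraMap (𝓞 N) (𝓞 F) c := smul_algebraMap _ _
        have h1fix : σ • (1 : 𝓞 F) = 1 := smul_one _
        rcases hQ1.mem_or_mem hmul with h | h
        · have h3 := hstab _ h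
          rw [smul_sub, hσD, hcfix] at h3
          have h4 := Q.neg_mem (Q.add_mem h h3)
          convert h4 using 1
          rw [map_add, map_mul, map_ofNat, map_one]
          ring
        · have h3 := hstab _ h
          rw [smul_add, smul_add, hσD, hcfix, h1fix] at h3
          have h4 := Q.add_mem h h3
          convert h4 using 1
          rw [map_add, map_mul, map_ofNat, map_one]
          ring
      rw [hmem] at hfin
      apply h3
      have e : (3 : 𝓞 N) = 4 * (c ^ 2 + c + 1) - (2 * c + 1) * (2 * c + 1) := by ring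
      rw [e]
      exact Ideal.sub_mem _ (Ideal.mul_mem_left _ _ hc) (Ideal.mul_mem_left _ _ hfin)
    have h2 : (v.asIdeal.primesOver (𝓞 F)).ncard = 2 := by
      rcases (Nat.dvd_prime Nat.prime_two).mp hdvd with h | h
      · exact absurd h hne1
      · exact h
    refine ⟨hs, ?_, h2⟩
    intro w hw
    rw [hnrm w hw]
    rw [h2] at hfund
    have h3 : Ideal.ramificationIdxIn v.asIdeal (𝓞 F) * Ideal.inertiaDegIn v.asIdeal (𝓞 F) = 1 := by
      omega
    rw [Nat.eq_one_of_mul_eq_one_left h3, pow_one]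
  · right
    have hne1 : Ideal.inertiaDegIn v.asIdeal (𝓞 F) ≠ 1 := by
      intro h1
      set w : HeightOneSpectrum (𝓞 F) := ⟨Q, hQ1, under_ne_bot v Q hQ2.over.symm⟩ with hw
      have hwu : w.asIdeal.under (𝓞 N) = v.asIdeal := hQ2.over.symm
      have h5 := hnrm w hwu
      rw [h1, pow_one] at h5
      apply hs
      rw [← h5]
      exact u4_three_dvd w (h3w w hwu) D hD
    have hdvd2 : Ideal.inertiaDegIn v.asIdeal (𝓞 F) ∣ 2 := by
      rw [← hfund, ← mul_assoc]
      exact Dvd.intro_left _ rfl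
    have h2 : Ideal.inertiaDegIn v.asIdeal (𝓞 F) = 2 := by
      rcases (Nat.dvd_prime Nat.prime_two).mp hdvd2 with h | h
      · exact absurd h hne1
      · exact h
    refine ⟨hs, ?_, ?_⟩
    · intro w hw
      rw [hnrm w hw, h2]
    · rw [h2] at hfund
      have : (v.asIdeal.primesOver (𝓞 F)).ncard * Ideal.ramificationIdxIn v.asIdeal (𝓞 F) = 1 := by
        nlinarith [hfund]
      exact Nat.eq_one_of_mul_eq_one_right this

end Pool.Agent.Lib.MP_1a91b9_nuT.S4
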