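import Pool.Agent.Lib.MP_1a91b9_nuT.BaseK
import Pool.Agent.Lib.MP_1a91b9_nuT.S4.Jac
import Pool.Agent.Lib.MP_1a91b9_nuT.S4.Count
import Pool.Agent.Lib.MP_1a91b9_nuT.S4.Split
import Pool.Agent.Lib.MP_1a91b9_nt.LocDep

/-!
# S4: common imports
-/
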