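import Pool.Agent.Lib.MP_1a91b9_nt.Product
import Pool.Agent.Lib.MP_1a91b9_nt.QuadField
import Pool.Agent.Lib.MP_1a91b9_nuT.S4.PsiProps

/-!
# S4: the Euler factors in a quadratic extension
-/

set_option autoImplicit false

namespace Pool.Agent.Lib.MP_1a91b9_nuT.S4

variable [CD]

open NumberField IsDedekindDomain Polynomial Pool.Agent.Lib.MP_1a91b9_nt

universe u

section
variable {F F' : Type u} [Field F] [NumberField F] [Field F'] [NumberField F'] [Algebra F F']

/-- the places of `F'` above `v` -/
abbrev Over (F' : Type u) [Field F'] [NumberField F'] [Algebra F F']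
    (v : HeightOneSpectrum (𝓞 F)) : Type u :=
  {w : HeightOneSpectrum (𝓞 F') // w.asIdeal.under (𝓞 F) = v.asIdeal}

noncomputable instance fintypeOver (v : HeightOneSpectrum (𝓞 F)) : Fintype (Over F' v) :=
  @Fintype.ofFinite _ (pf_finite_over v)

/-- An Euler product over `F'` is an Euler product over `F`. -/
theorem hasProd_over (g : HeightOneSpectrum (𝓞 F') → ℂ) (a : ℂ) (h : HasProd g a) :
    HasProd (fun v : HeightOneSpectrum (𝓞 F) => ∏ w : Over F' v, g w.1) a := by
  let pr : HeightOneSpectrum (𝓞 F') → HeightOneSpectrum (𝓞 F) := fun w => w.under (𝓞 F)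
  have h2 : HasProd (fun x : Σ v : HeightOneSpectrum (𝓞 F), {w // pr w = v} => g x.2.1) a := by
    rw [← (Equiv.sigmaFiberEquiv pr).symm.hasProd_iff]
    exact h
  refine h2.sigma fun v => ?_
  let e : Over F' v ≃ {w // pr w = v} :=
    Equiv.subtypeEquivRight fun w =>
      ⟨fun h => HeightOneSpectrum.ext h, fun h => congrArg HeightOneSpectrum.asIdeal h⟩
  rw [← e.hasProd_iff]
  exact hasProd_fintype _


variable [Algebra K F] [Algebra K F'] [IsScalarTower K F F']


end

end Pool.Agent.Lib.MP_1a91b9_nuT.S4
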