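import Pool.Agent.Lib.MP_1a91b9_nuT.S4.PsiProps
import Pool.Agent.Lib.MP_1a91b9_nuT.S4.IsRep

/-!
# S4: `ψ_F` on principal ideals, and norms
-/

set_option autoImplicit false

namespace Pool.Agent.Lib.MP_1a91b9_nuT.S4

variable [CD]

open NumberField IsDedekindDomain Pool.Agent.Lib.MP_1a91b9_nt

section
variable {F : Type*} [Field F] [NumberField F] [Algebra K F]

theorem pid_K : IsPrincipalIdealRing (𝓞 K) := pidK

/-- the relative norm of integers -/
noncomputable def nK (z : 𝓞 F) : 𝓞 K := Algebra.intNorm (𝓞 K) (𝓞 F) z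

theorem nK_coe (z : 𝓞 F) : ((nK z : 𝓞 K) : K) = Algebra.norm K (z : F) := by
  exact Algebra.algebraMap_intNorm (A := 𝓞 K) (K := K) (L := F) (B := 𝓞 F) z

theorem embK_nK (z : 𝓞 F) : embK ((nK z : 𝓞 K) : K) = Nm (z : F) := by
  rw [Nm, nK_coe]

theorem nK_mul (x y : 𝓞 F) : nK (x * y) = nK x * nK y := map_mul _ _ _

theorem nK_one : nK (1 : 𝓞 F) = 1 := map_one _


theorem relNorm_span (z : 𝓞 F) :
    Ideal.relNorm (𝓞 K) (Ideal.span {z}) = Ideal.span {nK z} :=
  Ideal.relNorm_singleton (𝓞 K) z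

theorem intNorm_eq (z : 𝓞 F) : nK z = Algebra.norm (𝓞 K) z := by
  have hfree : Module.Free (𝓞 K) (𝓞 F) := Module.free_of_finite_type_torsion_free'
  exact congrFun (congrArg DFunLike.coe (Algebra.intNorm_eq_norm (A := 𝓞 K) (B := 𝓞 F))) z

/-- congruence of norms -/
theorem nK_congr (c : 𝓞 K) (r t : 𝓞 F) (h : algebraMap (𝓞 K) (𝓞 F) c ∣ r - t) :
    c ∣ nK r - nK t := by
  have hfree : Module.Free (𝓞 K) (𝓞 F) := Module.free_of_finite_type_torsion_free'
  obtain ⟨s, hs⟩ := h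
  have hr : r = t + c • s := by
    rw [Algebra.smul_def, ← hs]; ring
  set B := Module.Free.chooseBasis (𝓞 K) (𝓞 F)
  rw [intNorm_eq, intNorm_eq, Algebra.norm_eq_matrix_det B, Algebra.norm_eq_matrix_det B]
  -- reduce modulo `c`
  set q := Ideal.Quotient.mk (Ideal.span {c})
  rw [← Ideal.mem_span_singleton, ← Ideal.Quotient.eq]
  rw [RingHom.map_det, RingHom.map_det]
  congr 1
  ext i j
  rw [hr, map_add, map_smul]
  simp only [RingHom.mapMatrix_apply, Matrix.map_apply, Matrix.add_apply, Matrix.smul_apply,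
    map_add, smul_eq_mul, map_mul]
  have hc : (Ideal.Quotient.mk (Ideal.span {c})) c = 0 := by
    rw [Ideal.Quotient.eq_zero_iff_mem]
    exact Ideal.mem_span_singleton_self c
  rw [hc, zero_mul, add_zero]


end

end Pool.Agent.Lib.MP_1a91b9_nuT.S4
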