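import Pool.Agent.Lib.MP_1a91b9_nuT.S4.LProd
import Pool.Agent.Lib.MP_1a91b9_nuT.S4.Quad
import Pool.Agent.Lib.MP_1a91b9_nuT.BaseK

/-!
# S4: comparison of L-series which differ at finitely many places; the quadratic step
-/

set_option autoImplicit false

namespace Pool.Agent.Lib.MP_1a91b9_nuT.S4

variable [CD]

open NumberField IsDedekindDomain Pool.Agent.Lib.MP_1a91b9_nt

universe u

section
variable {F : Type u} [Field F] [NumberField F]

/-- the Euler factor does not vanish -/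
theorem euler_ne_zero (f : Ideal (𝓞 F) → ℂ) (hf : ∀ I, ‖f I‖ ≤ (Ideal.absNorm I : ℝ) ^ (1 / 2 : ℝ))
    (v : HeightOneSpectrum (𝓞 F)) (s : ℂ) (hs : 1 / 2 < s.re) :
    1 - f v.asIdeal * (Ideal.absNorm v.asIdeal : ℂ) ^ (-s) ≠ 0 := by
  intro h
  have h1 : f v.asIdeal * (Ideal.absNorm v.asIdeal : ℂ) ^ (-s) = 1 := (sub_eq_zero.mp h).symm
  have hN2 : 2 ≤ Ideal.absNorm v.asIdeal := by
    have := finite_residue v
    rw [← nrm_eq]
    exact Finite.one_lt_card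
  have hN : (1 : ℝ) < (Ideal.absNorm v.asIdeal : ℝ) := by exact_mod_cast hN2
  have h2 := congrArg norm h1
  rw [norm_mul, Complex.norm_natCast_cpow_of_pos (by omega), norm_one] at h2
  have h3 : ‖f v.asIdeal‖ * (Ideal.absNorm v.asIdeal : ℝ) ^ (-s).re ≤
      (Ideal.absNorm v.asIdeal : ℝ) ^ (1 / 2 : ℝ) * (Ideal.absNorm v.asIdeal : ℝ) ^ (-s).re :=
    mul_le_mul_of_nonneg_right (hf _) (by positivity)
  rw [h2, ← Real.rpow_add (by linarith)] at h3
  have h4 : (Ideal.absNorm v.asIdeal : ℝ) ^ (1 / 2 + (-s).re) < 1 := by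
    refine Real.rpow_lt_one_of_one_lt_of_neg hN ?_
    rw [Complex.neg_re]
    linarith
  linarith

/-- L-series of functions which differ at finitely many places -/
theorem compare_Lf (f g : Ideal (𝓞 F) → ℂ) (f1 : f 1 = 1) (fmul : ∀ I J, f (I * J) = f I * f J)
    (hf : ∀ I, ‖f I‖ ≤ (Ideal.absNorm I : ℝ) ^ (1 / 2 : ℝ))
    (g1 : g 1 = 1) (gmul : ∀ I J, g (I * J) = g I * g J)
    (hg : ∀ I, ‖g I‖ ≤ (Ideal.absNorm I : ℝ) ^ (1 / 2 : ℝ))
    (S : Finset (HeightOneSpectrum (𝓞 F))) (hS : ∀ v ∉ S, f v.asIdeal = g v.asIdeal)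
    (s : ℂ) (hs : 2 < s.re) :
    Lf f s * ∏ v ∈ S, (1 - f v.asIdeal * (Ideal.absNorm v.asIdeal : ℂ) ^ (-s)) =
      Lf g s * ∏ v ∈ S, (1 - g v.asIdeal * (Ideal.absNorm v.asIdeal : ℂ) ^ (-s)) := by
  classical
  have key : ∀ f : Ideal (𝓞 F) → ℂ, f 1 = 1 → (∀ I J, f (I * J) = f I * f J) →
      (∀ I, ‖f I‖ ≤ (Ideal.absNorm I : ℝ) ^ (1 / 2 : ℝ)) →
      HasProd (fun v : HeightOneSpectrum (𝓞 F) => if v ∈ S then (1 : ℂ) else
        (1 - f v.asIdeal * (Ideal.absNorm v.asIdeal : ℂ) ^ (-s))⁻¹)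
        (Lf f s * ∏ v ∈ S, (1 - f v.asIdeal * (Ideal.absNorm v.asIdeal : ℂ) ^ (-s))) := by
    intro f f1 fmul hf
    have h1 := (hasProd_Lf f f1 fmul (1 / 2) (by norm_num) hf s (by linarith)).2
    have h2 : HasProd (fun v : HeightOneSpectrum (𝓞 F) => if v ∈ S then
        (1 - f v.asIdeal * (Ideal.absNorm v.asIdeal : ℂ) ^ (-s)) else 1)
        (∏ v ∈ S, (if v ∈ S then (1 - f v.asIdeal * (Ideal.absNorm v.asIdeal : ℂ) ^ (-s)) else 1)) :=
      hasProd_prod_of_ne_finset_one fun v hv => if_neg hv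
    have e1 : ∏ v ∈ S, (if v ∈ S then
        (1 - f v.asIdeal * (Ideal.absNorm v.asIdeal : ℂ) ^ (-s)) else 1) =
        ∏ v ∈ S, (1 - f v.asIdeal * (Ideal.absNorm v.asIdeal : ℂ) ^ (-s)) :=
      Finset.prod_congr rfl fun v hv => if_pos hv
    rw [e1] at h2
    have h3 := h1.mul h2
    have e2 : (fun v : HeightOneSpectrum (𝓞 F) =>
        (1 - f v.asIdeal * (Ideal.absNorm v.asIdeal : ℂ) ^ (-s))⁻¹ * (if v ∈ S then
        (1 - f v.asIdeal * (Ideal.absNorm v.asIdeal : ℂ) ^ (-s)) else 1)) =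
        fun v => if v ∈ S then (1 : ℂ) else
        (1 - f v.asIdeal * (Ideal.absNorm v.asIdeal : ℂ) ^ (-s))⁻¹ := by
      funext v
      by_cases hv : v ∈ S
      · rw [if_pos hv, if_pos hv, inv_mul_cancel₀ (euler_ne_zero f hf v s (by linarith))]
      · rw [if_neg hv, if_neg hv, mul_one]
    rw [← e2]
    exact h3
  have hF := key f f1 fmul hf
  have hG := key g g1 gmul hg
  refine hF.unique ?_
  have e : (fun v : HeightOneSpectrum (𝓞 F) => if v ∈ S then (1 : ℂ) else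
        (1 - f v.asIdeal * (Ideal.absNorm v.asIdeal : ℂ) ^ (-s))⁻¹) = fun v => if v ∈ S then (1 : ℂ)
        else (1 - g v.asIdeal * (Ideal.absNorm v.asIdeal : ℂ) ^ (-s))⁻¹ := by
    funext v
    by_cases hv : v ∈ S
    · rw [if_pos hv, if_pos hv]
    · rw [if_neg hv, if_neg hv, hS v hv]
  rw [e]
  exact hG


end

section
variable {F F' : Type u} [Field F] [NumberField F] [Field F'] [NumberField F'] [Algebra F F']
  [Algebra K F] [Algebra K F'] [IsScalarTower K F F']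


end

end Pool.Agent.Lib.MP_1a91b9_nuT.S4
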