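import Pool.Agent.Lib.MP_1a91b9_nuT.S4.PsiProps
import Pool.Agent.Lib.MP_1a91b9_nuT.Nrm

/-!
# S4: `ψ_F` and the complex conjugation
-/

set_option autoImplicit false

namespace Pool.Agent.Lib.MP_1a91b9_nuT.S4

variable [CD]

open NumberField IsDedekindDomain Pool.Agent.Lib.MP_1a91b9_nt
open scoped Pointwise

universe u

/-- conjugation of `K` -/
noncomputable def tauR : K ≃+* K :=
  IsFractionRing.ringEquivOfRingEquiv (K := K) (L := K) (cjE : 𝓞 K ≃+* 𝓞 K)

theorem tauR_coe (x : 𝓞 K) : tauR (x : K) = ((cj x : 𝓞 K) : K) :=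
  IsFractionRing.ringEquivOfRingEquiv_algebraMap (cjE : 𝓞 K ≃+* 𝓞 K) x

/-- conjugation of `K` -/
noncomputable def tau : Gal(K/ℚ) :=
  AlgEquiv.ofRingEquiv (f := tauR) (fun q => by
    rw [eq_ratCast (algebraMap ℚ K) q, map_ratCast])

theorem tau_apply (x : K) : tau x = tauR x := rfl

theorem tau_coe (x : 𝓞 K) : tau (x : K) = ((cj x : 𝓞 K) : K) := tauR_coe x

theorem tau_om : tau om = (CD.tr : K) - om := by
  have h := tau_coe (omO : 𝓞 K)
  have h1 := cj_coords 0 1
  have e : ((0 : ℤ) : 𝓞 K) + ((1 : ℤ) : 𝓞 K) * ta = ta := by push_cast; ring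
  rw [e] at h1
  rw [h]
  change ((cj (ta : 𝓞 K) : 𝓞 K) : K) = _
  rw [h1]
  change algebraMap (𝓞 K) K _ = _
  rw [map_sub, map_mul, map_intCast, map_intCast]
  push_cast
  ring

/-- two embeddings of `K` which agree at `om` are equal -/
theorem embedding_ext {L : Type*} [Field L] [CharZero L] (f g : K →+* L) (h : f om = g om) :
    f = g := by
  refine RingHom.ext fun x => ?_
  obtain ⟨a, b, rfl⟩ := exists_rat_coords x
  rw [map_add, map_mul, map_add, map_mul, map_ratCast, map_ratCast, map_ratCast, map_ratCast, h]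

theorem embK_tau (x : K) : embK (tau x) = (starRingEnd ℂ) (embK x) := by
  have h := embedding_ext (embK.toRingHom.comp tau.toRingEquiv.toRingHom)
    ((starRingEnd ℂ).comp embK.toRingHom) (by
      change embK (tau om) = (starRingEnd ℂ) (embK om)
      rw [tau_om, map_sub, map_intCast, embK_om, conj_zt])
  exact congrArg (fun f => f x) h

/-- conjugation of `𝓞 K` -/
noncomputable def cO : 𝓞 K ≃+* 𝓞 K := RingOfIntegers.mapRingEquiv tau.toRingEquiv

theorem cO_coe (x : 𝓞 K) : ((cO x : 𝓞 K) : K) = tau (x : K) := rfl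

theorem cO_eq (x : 𝓞 K) : cO x = cj x := by
  apply RingOfIntegers.ext
  rw [cO_coe, tau_coe]

end Pool.Agent.Lib.MP_1a91b9_nuT.S4
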