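import Mathlib

/-!
# S4: sums over ideals of a Dedekind domain as Euler products
-/

set_option autoImplicit false

namespace Pool.Agent.Lib.MP_1a91b9_nuT.S4

open IsDedekindDomain Filter Topology

section
variable {R : Type*} [CommRing R] [IsDedekindDomain R]

/-- the nonzero ideals all of whose prime factors are in `S` -/
def smoothSet (S : Finset (HeightOneSpectrum R)) : Set (Ideal R) :=
  {I | I ≠ 0 ∧ ∀ w : HeightOneSpectrum R, w.asIdeal ∣ I → w ∈ S}

theorem smoothSet_empty : smoothSet (∅ : Finset (HeightOneSpectrum R)) = {1} := by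
  ext I
  simp only [smoothSet, Set.mem_ofPred_eq, Set.mem_singleton_iff]
  constructor
  · rintro ⟨h0, h⟩
    by_contra hne
    have hne' : I ≠ ⊤ := by rwa [Ideal.one_eq_top] at hne
    obtain ⟨M, hM, hIM⟩ := Ideal.exists_le_maximal I hne'
    have hMb : M ≠ ⊥ := by
      rintro rfl
      exact h0 (le_bot_iff.mp hIM)
    have := h ⟨M, hM.isPrime, hMb⟩ (Ideal.dvd_iff_le.mpr hIM)
    simp at this
  · rintro rfl
    refine ⟨one_ne_zero, fun w hw => ?_⟩
    exfalso
    exact w.prime.not_isUnit (isUnit_of_dvd_one hw)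

theorem mem_smooth_empty (I : smoothSet (∅ : Finset (HeightOneSpectrum R))) : (I : Ideal R) = 1 :=
  (Set.ext_iff.mp smoothSet_empty _).mp I.2

/-- the decomposition of the ideals with prime factors in `insert P S` -/
noncomputable def smoothEquiv [DecidableEq (HeightOneSpectrum R)] (S : Finset (HeightOneSpectrum R))
    (P : HeightOneSpectrum R) (hP : P ∉ S) :
    ℕ × smoothSet S ≃ smoothSet (insert P S) := by
  refine Equiv.ofBijective (fun x => ⟨P.asIdeal ^ x.1 * (x.2 : Ideal R), ?_, ?_⟩) ⟨?_, ?_⟩
  · exact mul_ne_zero (pow_ne_zero _ P.prime.ne_zero) x.2.2.1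
  · intro w hw
    rcases w.prime.dvd_or_dvd hw with h | h
    · have h1 := w.prime.dvd_of_dvd_pow h
      have h2 : w = P := by
        apply HeightOneSpectrum.ext
        have := (Prime.dvd_prime_iff_associated w.prime P.prime).mp h1
        exact associated_iff_eq.mp this
      rw [h2]
      exact Finset.mem_insert_self _ _
    · exact Finset.mem_insert_of_mem (x.2.2.2 w h)
  · rintro ⟨n, I, hI⟩ ⟨n', I', hI'⟩ h
    have h' : P.asIdeal ^ n * I = P.asIdeal ^ n' * I' := congrArg Subtype.val h
    have hnI : ¬ P.asIdeal ∣ I := fun hd => hP (hI.2 P hd)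
    have hnI' : ¬ P.asIdeal ∣ I' := fun hd => hP (hI'.2 P hd)
    have hnn : n = n' := by
      rcases lt_trichotomy n n' with hlt | heq | hlt
      · exfalso
        obtain ⟨k, rfl⟩ := Nat.exists_eq_add_of_lt hlt
        rw [show n + k + 1 = n + (k + 1) by ring, pow_add, mul_assoc] at h'
        have := mul_left_cancel₀ (pow_ne_zero n P.prime.ne_zero) h'
        apply hnI
        rw [this, pow_succ', mul_assoc]
        exact dvd_mul_right _ _
      · exact heq
      · exfalso
        obtain ⟨k, rfl⟩ := Nat.exists_eq_add_of_lt hlt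
        rw [show n' + k + 1 = n' + (k + 1) by ring, pow_add, mul_assoc] at h'
        have := mul_left_cancel₀ (pow_ne_zero n' P.prime.ne_zero) h'
        apply hnI'
        rw [← this, pow_succ', mul_assoc]
        exact dvd_mul_right _ _
    subst hnn
    have := mul_left_cancel₀ (pow_ne_zero n P.prime.ne_zero) h'
    subst this
    rfl
  · rintro ⟨I, hI0, hI⟩
    have hfm : FiniteMultiplicity P.asIdeal I := FiniteMultiplicity.of_prime_left P.prime hI0
    obtain ⟨J, hJ, hPJ⟩ := hfm.exists_eq_pow_mul_and_not_dvd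
    refine ⟨⟨multiplicity P.asIdeal I, J, ?_, ?_⟩, ?_⟩
    · rintro rfl
      exact hPJ (dvd_zero _)
    · intro w hw
      have h1 := hI w (by rw [hJ]; exact Dvd.dvd.mul_left hw _)
      rcases Finset.mem_insert.mp h1 with h2 | h2
      · rw [h2] at hw
        exact absurd hw hPJ
      · exact h2
    · apply Subtype.ext
      exact hJ.symm

theorem smoothEquiv_apply [DecidableEq (HeightOneSpectrum R)] (S : Finset (HeightOneSpectrum R))
    (P : HeightOneSpectrum R) (hP : P ∉ S) (x : ℕ × smoothSet S) :
    ((smoothEquiv S P hP x : smoothSet (insert P S)) : Ideal R) = P.asIdeal ^ x.1 * (x.2 : Ideal R) :=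
  rfl

/-- The Euler product over a finite set of primes. -/
theorem hasSum_smooth (f : Ideal R → ℂ) (h1 : f 1 = 1) (hmul : ∀ I J, f (I * J) = f I * f J)
    (hs : Summable fun I => ‖f I‖) (S : Finset (HeightOneSpectrum R)) :
    HasSum (fun I : smoothSet S => f I) (∏ w ∈ S, (1 - f w.asIdeal)⁻¹) := by
  classical
  have hpow : ∀ (P : Ideal R) (n : ℕ), f (P ^ n) = f P ^ n := by
    intro P n
    induction n with
    | zero => rw [pow_zero, pow_zero, h1]
    | succ n ih => rw [pow_succ, hmul, ih, pow_succ]
  induction S using Finset.induction_on with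
  | empty =>
    rw [Finset.prod_empty]
    have e : (fun I : smoothSet (∅ : Finset (HeightOneSpectrum R)) => f I) = fun _ => 1 := by
      funext I
      rw [mem_smooth_empty I, h1]
    rw [e]
    have hu : Unique (smoothSet (∅ : Finset (HeightOneSpectrum R))) :=
      { default := ⟨1, by rw [smoothSet_empty]; rfl⟩
        uniq := fun I => Subtype.ext (mem_smooth_empty I) }
    exact hasSum_unique _
  | insert P S hP ih =>
    rw [Finset.prod_insert hP]
    have hinjP : Function.Injective fun n : ℕ => P.asIdeal ^ n := by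
      exact (Ideal.pow_right_strictAnti _ P.ne_bot P.isPrime.ne_top).injective
    have hsP : Summable fun n : ℕ => ‖f P.asIdeal ^ n‖ := by
      have := hs.comp_injective hinjP
      refine this.congr fun n => ?_
      simp only [Function.comp_apply, hpow]
    have hlt : ‖f P.asIdeal‖ < 1 := by
      have h2 : Summable fun n : ℕ => ‖f P.asIdeal‖ ^ n := by
        simpa only [norm_pow] using hsP
      simpa using summable_geometric_iff_norm_lt_one.mp h2
    have hsS : Summable fun I : smoothSet S => ‖f I‖ := hs.subtype _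
    have hgeo : HasSum (fun n : ℕ => f P.asIdeal ^ n) (1 - f P.asIdeal)⁻¹ :=
      hasSum_geometric_of_norm_lt_one hlt
    have hsm : Summable fun x : ℕ × smoothSet S => f P.asIdeal ^ x.1 * f (x.2 : Ideal R) :=
      summable_mul_of_summable_norm (f := fun n : ℕ => f P.asIdeal ^ n)
        (g := fun I : smoothSet S => f (I : Ideal R)) hsP hsS
    have hprod : HasSum (fun x : ℕ × smoothSet S => f P.asIdeal ^ x.1 * f (x.2 : Ideal R))
        ((1 - f P.asIdeal)⁻¹ * ∏ w ∈ S, (1 - f w.asIdeal)⁻¹) :=
      HasSum.mul (f := fun n : ℕ => f P.asIdeal ^ n)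
        (g := fun I : smoothSet S => f (I : Ideal R)) hgeo ih hsm
    rw [← (smoothEquiv S P hP).hasSum_iff]
    have e : ((fun I : smoothSet (insert P S) => f I) ∘ smoothEquiv S P hP) =
        fun x : ℕ × smoothSet S => f P.asIdeal ^ x.1 * f x.2 := by
      funext x
      rw [Function.comp_apply, smoothEquiv_apply, hmul, hpow]
    rw [e]
    exact hprod

/-- The Euler product for a completely multiplicative function on ideals. -/
theorem hasProd_ideals (f : Ideal R → ℂ) (h0 : f 0 = 0) (h1 : f 1 = 1)
    (hmul : ∀ I J, f (I * J) = f I * f J) (hs : Summable fun I => ‖f I‖) :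
    HasProd (fun w : HeightOneSpectrum R => (1 - f w.asIdeal)⁻¹) (∑' I, f I) := by
  classical
  have hsum : Summable f := hs.of_norm
  rw [HasProd, SummationFilter.unconditional_filter, Metric.tendsto_atTop]
  intro ε hε
  -- a finite set of ideals which carries almost all the mass
  obtain ⟨T, hT⟩ := (summable_iff_vanishing_norm.mp hs) (ε / 2) (by positivity)
  -- the primes dividing the members of `T`
  have hfin : {w : HeightOneSpectrum R | ∃ I ∈ T, I ≠ 0 ∧ w.asIdeal ∣ I}.Finite := by
    have e : {w : HeightOneSpectrum R | ∃ I ∈ T, I ≠ 0 ∧ w.asIdeal ∣ I} =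
        ⋃ I ∈ T.filter (· ≠ 0), {w : HeightOneSpectrum R | w.asIdeal ∣ I} := by
      ext w
      simp [and_assoc]
    rw [e]
    refine Set.Finite.biUnion (Finset.finite_toSet _) fun I hI => ?_
    exact Ideal.finite_factors (by
      have := (Finset.mem_filter.mp hI).2
      exact this)
  refine ⟨hfin.toFinset, fun S hS => ?_⟩
  have hsmooth := hasSum_smooth f h1 hmul hs S
  rw [dist_eq_norm, ← hsmooth.tsum_eq]
  -- the difference is the sum over the complement
  have hsplit : ∑' I, f I = ∑' I : smoothSet S, f I + ∑' I : ((smoothSet S)ᶜ : Set (Ideal R)), f I :=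
    ((hsum.subtype _).tsum_add_tsum_compl (hsum.subtype _)).symm
  rw [hsplit, sub_add_cancel_left, norm_neg]
  have hsc : Summable fun I : ((smoothSet S)ᶜ : Set (Ideal R)) => ‖f I‖ := hs.subtype _
  refine (norm_tsum_le_tsum_norm hsc).trans_lt ?_
  have hle : ∑' I : ((smoothSet S)ᶜ : Set (Ideal R)), ‖f I‖ ≤ ε / 2 := by
    refine hsc.tsum_le_of_sum_le fun u => ?_
    -- drop the zero ideal
    set u' : Finset (Ideal R) := (u.map (Function.Embedding.subtype _)).filter (· ≠ 0) with hu'
    have e1 : ∑ I ∈ u, ‖f I‖ = ∑ I ∈ u', ‖f I‖ := by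
      rw [hu', Finset.sum_filter_of_ne]
      · rw [Finset.sum_map]
        rfl
      · intro I _ hI hI0
        rw [hI0, h0, norm_zero] at hI
        exact hI rfl
    rw [e1]
    have hdisj : Disjoint u' T := by
      rw [Finset.disjoint_left]
      intro I hI hIT
      rw [hu', Finset.mem_filter, Finset.mem_map] at hI
      obtain ⟨⟨J, _, rfl⟩, hI0⟩ := hI
      apply J.2
      refine ⟨hI0, fun w hw => hS ?_⟩
      rw [Set.Finite.mem_toFinset]
      exact ⟨_, hIT, hI0, hw⟩
    have := hT u' hdisj
    rw [Real.norm_of_nonneg (Finset.sum_nonneg fun _ _ => norm_nonneg _)] at this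
    exact this.le
  linarith

end

end Pool.Agent.Lib.MP_1a91b9_nuT.S4
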