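import Pool.Agent.Lib.MP_1a91b9_nt.Residue
import Pool.Agent.Lib.MP_1a91b9_nuT.S4.Add

/-!
# S4: the places above `3`

`NoCube3 N`: the valuation of `3` at the places of `N` above `3` is not a cube. It holds for `ℚ` and
goes up quadratic extensions, and then the local polynomial of `y^2 + y = x^3` is `1` there.
-/

set_option autoImplicit false

namespace Pool.Agent.Lib.MP_1a91b9_nuT.S4

open WeierstrassCurve IsDedekindDomain NumberField WithZero Pool.Agent.Lib.MP_1a91b9_nt

/-- The valuation of `3` is not a cube at the places above `3`. -/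
def NoCube3 (N : Type*) [Field N] [NumberField N] : Prop :=
  ∀ w : HeightOneSpectrum (𝓞 N), (3 : 𝓞 N) ∈ w.asIdeal → ∀ γ : ℤᵐ⁰, γ ^ 3 ≠ w.valuation N 3


end Pool.Agent.Lib.MP_1a91b9_nuT.S4
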