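import Pool.Agent.Lib.MP_1a91b9_nt.Euler
import Pool.Agent.Lib.MP_1a91b9_nuT.S4.PsiProps
import Pool.Agent.Lib.MP_1a91b9_nuT.S4.Place
import Pool.Agent.Lib.MP_1a91b9_nuT.S4.SumIdeals
import Pool.Agent.Lib.MP_1a91b9_nuT.S4.EulerSum

/-!
# S4: the L-series of `E` over `F` is the product of the two Hecke L-series
-/

set_option autoImplicit false

namespace Pool.Agent.Lib.MP_1a91b9_nuT.S4

variable [CD]

open NumberField IsDedekindDomain Polynomial Pool.Agent.Lib.MP_1a91b9_nt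

section

/-- the L-series of a function on ideals -/
noncomputable def Lf {F : Type*} [Field F] [NumberField F] (f : Ideal (𝓞 F) → ℂ) (s : ℂ) : ℂ :=
  ∑' I : Ideal (𝓞 F), f I * (Ideal.absNorm I : ℂ) ^ (-s)

variable {F : Type*} [Field F] [NumberField F]

/-- The Euler product of the L-series of a completely multiplicative function. -/
theorem hasProd_Lf (f : Ideal (𝓞 F) → ℂ) (h1 : f 1 = 1)
    (hmul : ∀ I J, f (I * J) = f I * f J) (r : ℝ) (hr : 0 ≤ r)
    (hf : ∀ I, ‖f I‖ ≤ (Ideal.absNorm I : ℝ) ^ r) (s : ℂ) (hs : 1 + r < s.re) :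
    (Summable fun I : Ideal (𝓞 F) => ‖f I * (Ideal.absNorm I : ℂ) ^ (-s)‖) ∧
    HasProd (fun w : HeightOneSpectrum (𝓞 F) =>
      (1 - f w.asIdeal * (Ideal.absNorm w.asIdeal : ℂ) ^ (-s))⁻¹) (Lf f s) := by
  have hs0 : s.re ≠ 0 := by
    intro h
    rw [h] at hs
    linarith
  have hs0' : -s ≠ 0 := by
    rw [Ne, neg_eq_zero]
    rintro rfl
    simp at hs0
  have hsum : Summable fun I : Ideal (𝓞 F) => ‖f I * (Ideal.absNorm I : ℂ) ^ (-s)‖ :=
    summable_ideals_mul F f 1 r (fun I => by rw [one_mul]; exact hf I) s hs hs0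
  refine ⟨hsum, ?_⟩
  refine hasProd_ideals (fun I : Ideal (𝓞 F) => f I * (Ideal.absNorm I : ℂ) ^ (-s)) ?_ ?_ ?_ hsum
  · rw [map_zero, Nat.cast_zero, Complex.zero_cpow hs0', mul_zero]
  · rw [h1, map_one, Nat.cast_one, Complex.one_cpow, mul_one]
  · intro I J
    rw [hmul, map_mul, Nat.cast_mul, Complex.natCast_mul_natCast_cpow]
    ring

variable [Algebra K F]


end

section tower


end tower

end Pool.Agent.Lib.MP_1a91b9_nuT.S4
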