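import Pool.Agent.Lib.MP_1a91b9_nuT.S4.ConjPsi
import Pool.Agent.Lib.MP_1a91b9_nuT.S4.LProd
import Pool.Agent.Lib.MP_1a91b9_nuT.S4.Quad

/-!
# S4: the L-series of `E` over a field without `√-3`
-/

set_option autoImplicit false

namespace Pool.Agent.Lib.MP_1a91b9_nuT.S4

variable [CD]

open NumberField IsDedekindDomain Polynomial WeierstrassCurve Pool.Agent.Lib.MP_1a91b9_nt
open scoped Pointwise

universe u

end Pool.Agent.Lib.MP_1a91b9_nuT.S4
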