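import Pool.Agent.Lib.MP_1a91b9_nuT.S4.Unfold
import Pool.Agent.Lib.MP_1a91b9_nuT.S4.NormAbs
import Pool.Agent.Lib.MP_1a91b9_nuT.S4.LProd

/-!
# S4: the unfolding of the L-series
-/

set_option autoImplicit false

namespace Pool.Agent.Lib.MP_1a91b9_nuT.S4

variable [CD]

open NumberField IsDedekindDomain Pool.Agent.Lib.MP_1a91b9_nt

universe u

section
variable {F : Type u} [Field F] [NumberField F]

omit [NumberField F] in
/-- sets of representatives exist -/
theorem exists_isRep (m b : Ideal (𝓞 F)) (t : 𝓞 F) : ∃ R : Set (𝓞 F), IsRep m b t R := by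
  classical
  let S : Setoid {z : 𝓞 F // z - t ∈ m * b} :=
    { r := fun z z' => ∃ u : (𝓞 F)ˣ, (u : 𝓞 F) - 1 ∈ m ∧ z'.1 = u * z.1
      iseqv := by
        refine ⟨fun z => ⟨1, by simp, by simp⟩, ?_, ?_⟩
        · rintro z z' ⟨u, hu, hz⟩
          have huu : ((u⁻¹ : (𝓞 F)ˣ) : 𝓞 F) * u = 1 := Units.inv_mul u
          refine ⟨u⁻¹, ?_, ?_⟩
          · have e : ((u⁻¹ : (𝓞 F)ˣ) : 𝓞 F) - 1 = -(((u⁻¹ : (𝓞 F)ˣ) : 𝓞 F) * (u - 1)) := by
              linear_combination huu
            rw [e]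
            exact Ideal.neg_mem_iff _ |>.mpr (Ideal.mul_mem_left _ _ hu)
          · rw [hz]
            linear_combination (-z.1) * huu
        · rintro z z' z'' ⟨u, hu, hz⟩ ⟨u', hu', hz'⟩
          refine ⟨u' * u, ?_, ?_⟩
          · have e : ((u' * u : (𝓞 F)ˣ) : 𝓞 F) - 1 = u' * (u - 1) + (u' - 1) := by
              push_cast
              ring
            rw [e]
            exact Ideal.add_mem _ (Ideal.mul_mem_left _ _ hu) hu'
          · rw [hz', hz]
            push_cast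
            ring }
  refine ⟨Set.range fun q : Quotient S => (Quotient.out q).1, ?_, ?_, ?_⟩
  · rintro _ ⟨q, rfl⟩
    exact (Quotient.out q).2
  · intro z hz
    let q : Quotient S := Quotient.mk S ⟨z, hz⟩
    have hrel : S (Quotient.out q) ⟨z, hz⟩ := Quotient.exact (Quotient.out_eq q)
    obtain ⟨u, hu, hzu⟩ := hrel
    exact ⟨u, hu, _, ⟨q, rfl⟩, hzu⟩
  · rintro _ ⟨q, rfl⟩ _ ⟨q', rfl⟩ u hu h
    have hrel : S (Quotient.out q) (Quotient.out q') := ⟨u, hu, h⟩
    have h1 := Quotient.sound hrel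
    rw [Quotient.out_eq, Quotient.out_eq] at h1
    rw [h1]

variable [Algebra K F]


end

end Pool.Agent.Lib.MP_1a91b9_nuT.S4
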