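import Pool.Agent.Lib.MP_1a91b9_nuT.S4.Bad
import Pool.Agent.Lib.MP_1a91b9_nuT.S4.UnfoldL

/-!
# S4: the comparisons of L-series used in the quadratic step
-/

set_option autoImplicit false

namespace Pool.Agent.Lib.MP_1a91b9_nuT.S4

variable [CD]

open IsDedekindDomain NumberField Pool.Agent.Lib.MP_1a91b9_nt

universe u

section
variable {F : Type u} [Field F] [NumberField F]

open Classical in
/-- the trivial character modulo `m` -/
noncomputable def indC (m I : Ideal (𝓞 F)) : ℂ := if IsCoprime I m then 1 else 0

omit [NumberField F] in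
theorem indC_of {m I : Ideal (𝓞 F)} (h : IsCoprime I m) : indC m I = 1 := if_pos h

omit [NumberField F] in
theorem indC_of_not {m I : Ideal (𝓞 F)} (h : ¬ IsCoprime I m) : indC m I = 0 := if_neg h

omit [NumberField F] in
theorem indC_one (m : Ideal (𝓞 F)) : indC m 1 = 1 := indC_of isCoprime_one_left

omit [NumberField F] in
theorem indC_mul (m I J : Ideal (𝓞 F)) : indC m (I * J) = indC m I * indC m J := by
  by_cases hI : IsCoprime I m
  · by_cases hJ : IsCoprime J m
    · rw [indC_of hI, indC_of hJ, indC_of (hI.mul_left hJ), one_mul]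
    · rw [indC_of_not hJ, mul_zero, indC_of_not]
      exact fun h => hJ h.of_mul_left_right
  · rw [indC_of_not hI, zero_mul, indC_of_not]
    exact fun h => hI h.of_mul_left_left

omit [NumberField F] in
theorem norm_indC_le (m I : Ideal (𝓞 F)) : ‖indC m I‖ ≤ 1 := by
  by_cases hI : IsCoprime I m
  · rw [indC_of hI, norm_one]
  · rw [indC_of_not hI, norm_zero]; exact zero_le_one

theorem indC_ray (m I J : Ideal (𝓞 F)) (h : RayEq m I J) : indC m I = indC m J := by
  by_cases hI : IsCoprime I m
  · rw [indC_of hI, indC_of (h.coprime hI)]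
  · rw [indC_of_not hI, indC_of_not fun hJ => hI (h.symm.coprime hJ)]

variable [Algebra K F]


end

section
variable {F F' : Type u} [Field F] [NumberField F] [Field F'] [NumberField F'] [Algebra F F']
  [Algebra K F]


end

end Pool.Agent.Lib.MP_1a91b9_nuT.S4
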