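import Pool.Agent.Lib.MP_1a91b9_nuT.S4.TwoAdic
import Pool.Agent.Lib.MP_1a91b9_nuT.S4.LComp

/-!
# S4: the interface with the values (stream S6) and the continuation of the L-series
-/

set_option autoImplicit false

namespace Pool.Agent.Lib.MP_1a91b9_nuT.S4

variable [CD]

open IsDedekindDomain NumberField Pool.Agent.Lib.MP_1a91b9_nt

universe u


end Pool.Agent.Lib.MP_1a91b9_nuT.S4
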