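import Pool.Agent.Lib.MP_1a91b9_nuT.S4.StepMain
import Pool.Agent.Lib.MP_1a91b9_nuT.S4.Family

/-!
# S4: the induction along the tower and the L-series of `E` over `F`
-/

set_option autoImplicit false

namespace Pool.Agent.Lib.MP_1a91b9_nuT.S4

variable [CD]

open IsDedekindDomain NumberField Pool.Agent.Lib.MP_1a91b9_nt

universe u


section
variable {F : Type u} [Field F] [NumberField F] [Algebra K F]

theorem UnitProp.ne_zero {Ω : ℂ} {L : ℂ} {n : ℕ} {W : ValuationSubring ℂ}
    (h : W.valuation (L / Ω ^ n) = 1) : L ≠ 0 := by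
  rintro rfl
  rw [zero_div, map_zero] at h
  exact zero_ne_one h


theorem differentiable_conj_conj {f : ℂ → ℂ} (hf : Differentiable ℂ f) :
    Differentiable ℂ fun s => (starRingEnd ℂ) (f ((starRingEnd ℂ) s)) := by
  intro s
  have h := DifferentiableAt.conj_conj (hf ((starRingEnd ℂ) s))
  rw [Complex.conj_conj] at h
  exact h


end

end Pool.Agent.Lib.MP_1a91b9_nuT.S4
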