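import Pool.Agent.Lib.MP_1a91b9_nuT.S4.Family
import Pool.Agent.Lib.MP_1a91b9_nuT.S4.TwoAdic
import Pool.Agent.Lib.MP_1a91b9_nuT.S4.UnfoldL
import Pool.Agent.Lib.MP_1a91b9_nuT.S4.PsiProps
import Pool.Agent.Lib.MP_1a91b9_nt.QuadField
import Pool.Agent.Lib.MP_1a91b9_nuT.S4.Compare
import Pool.Agent.Lib.MP_1a91b9_nuT.S4.Ray
import Mathlib
import Pool.Agent.Lib.MP_1a91b9_nuT.BaseK

/-!
# S4: the quadratic step
-/

set_option autoImplicit false

namespace Pool.Agent.Lib.MP_1a91b9_nuT.S4

variable [CD]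

open IsDedekindDomain NumberField Pool.Agent.Lib.MP_1a91b9_nt

universe u

theorem differentiable_euler {F : Type u} [Field F] [NumberField F]
    (S : Finset (HeightOneSpectrum (𝓞 F))) (f : HeightOneSpectrum (𝓞 F) → ℂ) :
    Differentiable ℂ fun s : ℂ => ∏ v ∈ S, (1 - f v * (Ideal.absNorm v.asIdeal : ℂ) ^ (-s)) := by
  have h : ∀ v : HeightOneSpectrum (𝓞 F), Differentiable ℂ
      fun s : ℂ => (1 - f v * (Ideal.absNorm v.asIdeal : ℂ) ^ (-s)) := by
    intro v
    refine (differentiable_const _).sub ((differentiable_const _).mul ?_)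
    refine differentiable_neg.const_cpow (Or.inl ?_)
    have := Ideal.absNorm_ne_zero_iff_mem_nonZeroDivisors.mpr
      (mem_nonZeroDivisors_iff_ne_zero.mpr v.ne_bot)
    exact_mod_cast this
  exact Differentiable.fun_finsetProd fun v _ => h v

/-- extensions of `K` are totally complex -/
theorem totallyComplex_of_K {F : Type*} [Field F] [NumberField F] [Algebra K F] :
    IsTotallyComplex F := by
  refine ⟨fun w => ?_⟩
  rw [← InfinitePlace.not_isReal_iff_isComplex]
  intro hr
  let φ := InfinitePlace.embedding_of_isReal hr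
  have h1 : (φ (algebraMap K F om)) ^ 2 = (CD.tr : ℝ) * φ (algebraMap K F om) - (CD.nm : ℝ) := by
    rw [← map_pow, ← map_pow, om_quad, map_sub, map_mul, map_sub, map_mul, map_intCast, map_intCast,
      map_intCast, map_intCast]
  have h2 : ((CD.tr : ℤ) : ℝ) ^ 2 < 4 * ((CD.nm : ℤ) : ℝ) := by exact_mod_cast disc_neg
  nlinarith [sq_nonneg (2 * φ (algebraMap K F om) - (CD.tr : ℝ))]

section
variable {F F' : Type u} [Field F] [NumberField F] [Field F'] [NumberField F'] [Algebra F F']
  [Algebra K F] [Algebra K F'] [IsScalarTower K F F']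


end

end Pool.Agent.Lib.MP_1a91b9_nuT.S4
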