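import Pool.Agent.Lib.MP_1a91b9_nuT.S4.Ray

/-!
# S4: extension of a character from the ideals coprime to `c` to the ideals coprime to `m`
-/

set_option autoImplicit false

namespace Pool.Agent.Lib.MP_1a91b9_nuT.S4

variable [CD]

section
variable {R : Type*} [CommRing R] [IsDedekindDomain R]

theorem ne_zero_of_coprime {I m : Ideal R} (hm1 : m ≠ 1) (h : IsCoprime I m) : I ≠ 0 := by
  rintro rfl
  rw [isCoprime_zero_left, Ideal.isUnit_iff, ← Ideal.one_eq_top] at h
  exact hm1 h


end

end Pool.Agent.Lib.MP_1a91b9_nuT.S4
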