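import Pool.Agent.Lib.MP_1a91b9_nt.QuadField
import Pool.Agent.Lib.MP_1a91b9_nuT.S4.Compare
import Pool.Agent.Lib.MP_1a91b9_nuT.S4.Ray
import Mathlib
import Pool.Agent.Lib.MP_1a91b9_nuT.BaseK
import Pool.Agent.Lib.MP_1a91b9_nuT.S4.Chit

/-!
# S4: the bad ideal and the ray class character
-/

set_option autoImplicit false

namespace Pool.Agent.Lib.MP_1a91b9_nuT.S4

variable [CD]

open IsDedekindDomain NumberField Pool.Agent.Lib.MP_1a91b9_nt

universe u

section
variable {F : Type u} [Field F] [NumberField F]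


theorem le_iff_not_coprime (m : Ideal (𝓞 F)) (v : HeightOneSpectrum (𝓞 F)) :
    m ≤ v.asIdeal ↔ ¬ IsCoprime v.asIdeal m := by
  rw [Ideal.isCoprime_iff_sup_eq]
  constructor
  · intro h1 h2
    rw [sup_eq_left.mpr h1] at h2
    exact v.isPrime.ne_top h2
  · intro h
    by_contra h1
    apply h
    refine v.isMaximal.1.2 _ (lt_of_le_of_ne le_sup_left ?_)
    intro h2
    apply h1
    rw [h2]
    exact le_sup_right


end

end Pool.Agent.Lib.MP_1a91b9_nuT.S4
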