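import Mathlib

/-!
# S4: the power sums which decide the divisibility of cubic Jacobi sums
-/

set_option autoImplicit false

namespace Pool.Agent.Lib.MP_1a91b9_nuT.S4

open Finset

/-- The sum of `x ^ i` over a finite field. -/
theorem u4_sum_pow {k : Type*} [Field k] [Fintype k] (i : ℕ) (hi : i ≠ 0) :
    ∑ x : k, x ^ i = if Fintype.card k - 1 ∣ i then -1 else 0 := by
  classical
  have h1 := FiniteField.sum_pow_units k i
  rw [← h1]
  have h2 : ∑ x : k, x ^ i = ∑ x ∈ univ.filter (fun x : k => x ≠ 0), x ^ i := by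
    rw [Finset.sum_filter]
    refine Finset.sum_congr rfl fun x _ => ?_
    by_cases hx : x = 0
    · simp [hx, hi]
    · simp [hx]
  rw [h2]
  symm
  refine Finset.sum_bij (fun (u : kˣ) _ => (u : k)) ?_ ?_ ?_ ?_
  · intro u _
    simp
  · intro u _ u' _ h
    exact Units.ext h
  · intro x hx
    simp only [mem_filter, mem_univ, true_and] at hx
    exact ⟨Units.mk0 x hx, mem_univ _, rfl⟩
  · intro u _
    simp

/-- `∑ x^a (1-x)^b` with `0 < a`, expanded. -/
theorem u4_sum_expand {k : Type*} [Field k] [Fintype k] (a b : ℕ) (ha : 0 < a) :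
    ∑ x : k, x ^ a * (1 - x) ^ b = ∑ j ∈ range (b + 1),
      ((-1) ^ j * (b.choose j : k)) * (if Fintype.card k - 1 ∣ a + j then -1 else 0) := by
  have h1 : ∀ x : k, x ^ a * (1 - x) ^ b =
      ∑ j ∈ range (b + 1), ((-1) ^ j * (b.choose j : k)) * x ^ (a + j) := by
    intro x
    have e : (1 - x) ^ b = ∑ j ∈ range (b + 1), (-x) ^ j * 1 ^ (b - j) * (b.choose j : k) := by
      rw [← add_pow]
      congr 1
      ring
    rw [e, mul_sum]
    refine sum_congr rfl fun j _ => ?_
    rw [one_pow, mul_one, neg_pow, pow_add]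
    ring
  simp_rw [h1]
  rw [sum_comm]
  refine sum_congr rfl fun j _ => ?_
  rw [← mul_sum, u4_sum_pow _ (by omega)]

theorem u4_sum_low {k : Type*} [Field k] [Fintype k] (m : ℕ) (hm : 0 < m)
    (hq : Fintype.card k - 1 = 3 * m) : ∑ x : k, x ^ m * (1 - x) ^ m = 0 := by
  rw [u4_sum_expand m m hm]
  refine sum_eq_zero fun j hj => ?_
  rw [mem_range] at hj
  rw [if_neg, mul_zero]
  rw [hq]
  intro h
  have := Nat.le_of_dvd (by omega) h
  omega

theorem u4_sum_high {k : Type*} [Field k] [Fintype k] (m : ℕ) (hm : 0 < m)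
    (hq : Fintype.card k - 1 = 3 * m) :
    ∑ x : k, x ^ (2 * m) * (1 - x) ^ (2 * m) = -((-1) ^ m * ((2 * m).choose m : k)) := by
  rw [u4_sum_expand (2 * m) (2 * m) (by omega)]
  rw [Finset.sum_eq_single m]
  · rw [if_pos]
    · ring
    · rw [hq]
      exact ⟨1, by ring⟩
  · intro j hj hjm
    rw [mem_range] at hj
    rw [if_neg, mul_zero]
    rw [hq]
    rintro ⟨c, hc⟩
    have hc1 : c = 1 := by
      have h1 : c < 2 := by
        by_contra hcon
        have : 3 * m * 2 ≤ 3 * m * c := Nat.mul_le_mul_left _ (by omega)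
        omega
      have h2 : c ≠ 0 := by
        rintro rfl
        omega
      omega
    subst hc1
    omega
  · intro h
    exact absurd (mem_range.mpr (by omega)) h

/-- Lucas: the central coefficient is prime to `p`. -/
theorem u4_choose {p : ℕ} [Fact p.Prime] (hp : p % 3 = 1) (f : ℕ) :
    ((((2 * ((p ^ f - 1) / 3)).choose ((p ^ f - 1) / 3) : ℕ) : ℤ) : ZMod p) ≠ 0 := by
  have hp2 : 1 < p := (Fact.out : p.Prime).one_lt
  induction f with
  | zero => simp
  | succ f ih =>
    set c := (p - 1) / 3 with hc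
    have hc3 : p = 3 * c + 1 := by omega
    set m := (p ^ f - 1) / 3 with hm
    have hpf : p ^ f % 3 = 1 := by
      rw [Nat.pow_mod, hp, one_pow]
      norm_num
    have hm3 : p ^ f = 3 * m + 1 := by
      have : 0 < p ^ f := pow_pos (by omega) _
      omega
    have hM : (p ^ (f + 1) - 1) / 3 = m * p + c := by
      rw [pow_succ, hm3]
      have : (3 * m + 1) * p = 3 * (m * p + c) + 1 := by
        calc (3 * m + 1) * p = 3 * (m * p) + p := by ring
          _ = 3 * (m * p) + (3 * c + 1) := by rw [← hc3]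
          _ = _ := by ring
      omega
    rw [hM]
    have hlt1 : c < p := by omega
    have hlt2 : 2 * c < p := by omega
    have e1 : (m * p + c) % p = c := by
      rw [Nat.add_comm, Nat.add_mul_mod_self_right, Nat.mod_eq_of_lt hlt1]
    have e2 : (m * p + c) / p = m := by
      rw [Nat.add_comm, Nat.add_mul_div_right _ _ (by omega), Nat.div_eq_of_lt hlt1, zero_add]
    have e3 : (2 * (m * p + c)) % p = 2 * c := by
      have : 2 * (m * p + c) = 2 * c + 2 * m * p := by ring
      rw [this, Nat.add_mul_mod_self_right, Nat.mod_eq_of_lt hlt2]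
    have e4 : (2 * (m * p + c)) / p = 2 * m := by
      have : 2 * (m * p + c) = 2 * c + 2 * m * p := by ring
      rw [this, Nat.add_mul_div_right _ _ (by omega), Nat.div_eq_of_lt hlt2, zero_add]
    have hL := @Choose.choose_modEq_choose_mod_mul_choose_div (2 * (m * p + c)) (m * p + c) p _
    rw [e1, e2, e3, e4] at hL
    have hL' := (ZMod.intCast_eq_intCast_iff _ _ p).mpr hL
    rw [hL']
    push_cast
    refine mul_ne_zero ?_ ?_
    · intro h0
      have h0' : (((2 * c).choose c : ℕ) : ZMod p) = 0 := h0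
      rw [ZMod.natCast_eq_zero_iff] at h0'
      have h1 : p ∣ (2 * c).factorial := h0'.trans (by
        have := Nat.choose_mul_factorial_mul_factorial (n := 2 * c) (k := c) (by omega)
        rw [← this, mul_assoc]
        exact Dvd.intro _ rfl)
      exact absurd ((Fact.out : p.Prime).dvd_factorial.mp h1) (by omega)
    · have := ih
      push_cast at this
      exact this

/-- The high sum is not zero in characteristic `p ≡ 1 mod 3`. -/
theorem u4_sum_high_ne {k : Type*} [Field k] [Fintype k] (p : ℕ) [Fact p.Prime] [CharP k p]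
    (hp : p % 3 = 1) (m : ℕ) (hm : 0 < m) (hq : Fintype.card k - 1 = 3 * m) :
    ∑ x : k, x ^ (2 * m) * (1 - x) ^ (2 * m) ≠ 0 := by
  rw [u4_sum_high m hm hq, neg_ne_zero]
  refine mul_ne_zero (pow_ne_zero _ (by simp)) ?_
  obtain ⟨n, hn, hcard⟩ := FiniteField.card k p
  have hm' : m = (p ^ (n : ℕ) - 1) / 3 := by omega
  have h := u4_choose hp (n : ℕ)
  rw [← hm'] at h
  intro h0
  apply h
  rw [Int.cast_natCast, ZMod.natCast_eq_zero_iff]
  exact (CharP.cast_eq_zero_iff k p _).mp h0

end Pool.Agent.Lib.MP_1a91b9_nuT.S4
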